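import Pool.Agent.MP_52a2fa_pr.H93.Bridge

set_option autoImplicit false

namespace Pool.Agent.Results.MP_52a2fa_pr.Poisson

open MP_52a2fa_pr.H93
open scoped NNReal

/-- Worm percolation on the four-dimensional lattice with power-law lengths has a positive
critical level exactly when the exponent is at least three. -/
theorem result (β : ℝ) (hβ : 1 < β) (m : PMF ℕ) (h0 : m 0 = 0) (c C : ℝ) (hc : 0 < c)
    (hC : c ≤ C) (hm : ∀ l : ℕ, 1 ≤ l →
      c * (l : ℝ) ^ (-β) ≤ (m l).toReal ∧ (m l).toReal ≤ C * (l : ℝ) ^ (-β)) :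
    0 < vc m ↔ 3 ≤ β := by
  have hC0 : 0 < C := hc.trans_le hC
  rw [vc, event_eq]
  constructor
  · intro h
    obtain ⟨v, hv⟩ := lt_iSup_iff.1 h
    obtain ⟨h1, h2⟩ := lt_iSup_iff.1 hv
    by_contra h3
    exact MP_52a2fa_pr.H50.supercritical (mr_nonneg m) (mr_hasSum m) hc (by linarith)
      (not_le.1 h3) (fun l hl => (hm l hl).1) (v := v) (by exact_mod_cast h2) (model m h0 v) h1
  · intro h3
    obtain ⟨v, hv⟩ : ∃ v : ℝ≥0, (v : ℝ) = 1 / (4 * (21 ^ 4 * 101 ^ 4) * (C * 10 ^ 20)) :=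
      ⟨⟨_, by positivity⟩, rfl⟩
    have hv0 : 0 < v := by
      rw [← NNReal.coe_pos, hv]
      positivity
    refine lt_iSup_iff.2 ⟨v, lt_iSup_iff.2 ⟨?_, by exact_mod_cast hv0⟩⟩
    refine MP_52a2fa_pr.H50.subcritical (mr_nonneg m) (mr_hasSum m) hC0
      (fun l hl => (hm l hl).2.trans ?_) (hv ▸ model m h0 v)
    have h4 : (1 : ℝ) ≤ l := by exact_mod_cast hl
    rw [div_eq_mul_inv, ← Real.rpow_natCast, ← Real.rpow_neg (by linarith)]
    refine mul_le_mul_of_nonneg_left (Real.rpow_le_rpow_of_exponent_le h4 ?_) hC0.le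
    push_cast
    linarith

end Pool.Agent.Results.MP_52a2fa_pr.Poisson
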